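import Pool.Agent.Y462.AR.Tool
import Pool.Agent.Y547.GE.PP

/-!
# The dihedral Artin group of label 4 acts faithfully
-/

set_option autoImplicit false

namespace Pool.Agent.Y759.ARD

open Pool.Agent.Y462.PA (Am)
open Pool.Agent.Y462.AR

/-- the first region -/
def PA (p q : ℤ) : Prop :=
  (0 < p ∧ q < 0) ∨ (p < 0 ∧ 0 < q) ∨ (-p < q ∧ q < p) ∨ (p < q ∧ q < -p)

/-- the second region -/
def PB (p q : ℤ) : Prop := (0 < p ∧ p < q) ∨ (q < p ∧ p < 0)

theorem PA_neg {p q : ℤ} (h : PA p q) : PA (-p) (-q) := by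
  unfold PA at *
  omega

theorem PB_neg {p q : ℤ} (h : PB p q) : PB (-p) (-q) := by
  unfold PB at *
  omega

theorem stepA {n p q : ℤ} (hn : n ≠ 0) (h : PB p q) : PA (p + n * q) q := by
  unfold PB at h
  unfold PA
  rcases h with ⟨h1, h2⟩ | ⟨h1, h2⟩
  · rcases lt_or_gt_of_ne hn with h3 | h3
    · have h4 : n * q ≤ -q := by nlinarith
      omega
    · have h4 : q ≤ n * q := by nlinarith
      omega
  · rcases lt_or_gt_of_ne hn with h3 | h3
    · have h4 : -q ≤ n * q := by nlinarith
      omega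
    · have h4 : n * q ≤ q := by nlinarith
      omega

theorem stepB {p q : ℤ} (h : PA p q) : PB (q - p) (q - 2 * p) := by
  unfold PA at h
  unfold PB
  omega

theorem stepD {p q : ℤ} (h : PA p q) : q.natAbs < (q - 2 * p).natAbs := by
  unfold PA at h
  omega

theorem core {G : Type} [Group G] (a c : G) (hrel : a * (c * (a * c)) = c * (a * (c * a)))
    (hgen : ∀ S : Subgroup G, a ∈ S → c ∈ S → ∀ g, g ∈ S) (φ : G →* Equiv.Perm (ℤ × ℤ))
    (hφa : ∀ x y, φ a (x, y) = (x + y, y)) (hφc : ∀ x y, φ c (x, y) = (x, y - 2 * x))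
    (len : G →* Multiplicative ℤ) (hla : len a = Multiplicative.ofAdd 1)
    (hlc : len c = Multiplicative.ofAdd 1) : ∀ g, φ g = 1 → len g = 1 → g = 1 := by
  obtain ⟨x, hx⟩ : ∃ x, x = a * c := ⟨_, rfl⟩
  obtain ⟨z, hz⟩ : ∃ z, z = x * x := ⟨_, rfl⟩
  have hφx : ∀ p q, φ x (p, q) = (q - p, q - 2 * p) := by
    intro p q
    rw [hx, map_mul, Equiv.Perm.mul_apply, hφc, hφa]
    refine Prod.ext ?_ rfl
    show p + (q - 2 * p) = q - p
    ring
  have hφz : ∀ p q, φ z (p, q) = (-p, -q) := by
    intro p q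
    rw [hz, map_mul, Equiv.Perm.mul_apply, hφx, hφx]
    refine Prod.ext ?_ ?_
    · show q - 2 * p - (q - p) = -p
      ring
    · show q - 2 * p - 2 * (q - p) = -q
      ring
  have hφai : ∀ p q, φ a⁻¹ (p, q) = (p - q, q) := by
    intro p q
    rw [map_inv, Equiv.Perm.inv_eq_iff_eq, hφa]
    refine Prod.ext ?_ rfl
    show p = p - q + q
    ring
  have hφzi : ∀ p q, φ z⁻¹ (p, q) = (-p, -q) := by
    intro p q
    rw [map_inv, Equiv.Perm.inv_eq_iff_eq, hφz, neg_neg, neg_neg]
  have hφan : ∀ (n : ℤ) (p q : ℤ), φ (a ^ n) (p, q) = (p + n * q, q) := by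
    intro n
    induction n using Int.induction_on with
    | zero =>
      intro p q
      rw [zpow_zero, map_one, Equiv.Perm.one_apply, zero_mul, add_zero]
    | succ n ih =>
      intro p q
      rw [zpow_add_one, map_mul, Equiv.Perm.mul_apply, hφa, ih]
      refine Prod.ext ?_ rfl
      show p + q + (n : ℤ) * q = p + ((n : ℤ) + 1) * q
      ring
    | pred n ih =>
      intro p q
      rw [zpow_sub_one, map_mul, Equiv.Perm.mul_apply, hφai, ih]
      refine Prod.ext ?_ rfl
      show p - q + (-(n : ℤ)) * q = p + (-(n : ℤ) - 1) * q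
      ring
  have hφzn : ∀ k : ℤ, (∀ p q, φ (z ^ k) (p, q) = (p, q)) ∨
      (∀ p q, φ (z ^ k) (p, q) = (-p, -q)) := by
    intro k
    induction k using Int.induction_on with
    | zero =>
      left
      intro p q
      rw [zpow_zero, map_one, Equiv.Perm.one_apply]
    | succ n ih =>
      rcases ih with ih | ih
      · right
        intro p q
        rw [zpow_add_one, map_mul, Equiv.Perm.mul_apply, hφz, ih]
      · left
        intro p q
        rw [zpow_add_one, map_mul, Equiv.Perm.mul_apply, hφz, ih, neg_neg, neg_neg]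
    | pred n ih =>
      rcases ih with ih | ih
      · right
        intro p q
        rw [zpow_sub_one, map_mul, Equiv.Perm.mul_apply, hφzi, ih]
      · left
        intro p q
        rw [zpow_sub_one, map_mul, Equiv.Perm.mul_apply, hφzi, ih, neg_neg, neg_neg]
  have hcomm : Commute a z := by
    show a * z = z * a
    rw [hz, hx]
    calc a * (a * c * (a * c)) = a * (a * (c * (a * c))) := by
          simp only [mul_assoc]
      _ = a * (c * (a * (c * a))) := by rw [hrel]
      _ = a * c * (a * c) * a := by simp only [mul_assoc]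
  have hx2 : ∀ j : ℤ, x ^ (2 * j) = z ^ j := by
    intro j
    rw [zpow_mul, zpow_two, hz]
  let α : Multiplicative ℤ →* Multiplicative ℤ × Multiplicative ℤ := MonoidHom.inr _ _
  let β : Multiplicative ℤ →* Multiplicative ℤ := powMonoidHom 2
  let θA : Multiplicative ℤ × Multiplicative ℤ →* G :=
    MonoidHom.noncommCoprod (zpowersHom G a) (zpowersHom G z) (fun m n => by
      rw [zpowersHom_apply, zpowersHom_apply]
      exact hcomm.zpow_zpow _ _)
  let θB : Multiplicative ℤ →* G := zpowersHom G x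
  have hθA : ∀ n k : Multiplicative ℤ, θA (n, k) =
      a ^ (Multiplicative.toAdd n) * z ^ (Multiplicative.toAdd k) := fun n k => rfl
  have hθB : ∀ n : Multiplicative ℤ, θB n = x ^ (Multiplicative.toAdd n) := fun n => rfl
  have hα : ∀ k, α k = (1, k) := fun k => rfl
  have hβ : ∀ k, β k = k ^ 2 := fun k => rfl
  have hαz : ∀ k, θA (α k) = z ^ (Multiplicative.toAdd k) := by
    intro k
    rw [hα, hθA, toAdd_one, zpow_zero, one_mul]
  have hcompat : ∀ k, θA (α k) = θB (β k) := by
    intro k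
    rw [hαz, hθB, hβ, toAdd_pow, nsmul_eq_mul, ← hx2]
    rfl
  obtain ⟨θ, hθ⟩ : ∃ θ, θ = Am.lift α β θA θB hcompat := ⟨_, rfl⟩
  have hθl : ∀ y, θ (Am.inl α β y) = θA y := by
    intro y
    rw [hθ, Am.lift_inl]
  have hθr : ∀ y, θ (Am.inr α β y) = θB y := by
    intro y
    rw [hθ, Am.lift_inr]
  have hsurj : ∀ g, ∃ h, θ h = g := by
    have ha : a ∈ θ.range := ⟨Am.inl α β (Multiplicative.ofAdd 1, 1), by
      rw [hθl, hθA, toAdd_one, toAdd_ofAdd, zpow_one, zpow_zero, mul_one]⟩
    have hxr : x ∈ θ.range := ⟨Am.inr α β (Multiplicative.ofAdd 1), by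
      rw [hθr, hθB, toAdd_ofAdd, zpow_one]⟩
    have hc : c ∈ θ.range := by
      have h1 : c = a⁻¹ * x := by rw [hx, inv_mul_cancel_left]
      rw [h1]
      exact mul_mem (inv_mem ha) hxr
    intro g
    exact hgen θ.range ha hc g
  obtain ⟨F, hF⟩ : ∃ F, F = (act φ len).comp θ := ⟨_, rfl⟩
  have hFv : ∀ h v, F h v = (φ (θ h) v.1, v.2 + Multiplicative.toAdd (len (θ h))) := by
    intro h v
    rw [hF]
    rfl
  have hlz : len z = Multiplicative.ofAdd 4 := by
    rw [hz, hx, map_mul, map_mul, hla, hlc]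
    rfl
  have hinj : Function.Injective F := by
    refine Pool.Agent.Y547.GE.t_pp (Multiplicative ℤ) (Multiplicative ℤ × Multiplicative ℤ)
      (Multiplicative ℤ) ((ℤ × ℤ) × ℤ) α β F {v | PA v.1.1 v.1.2} {v | PB v.1.1 v.1.2}
      (fun v => ((v.1.2.natAbs : ℕ) : WithBot ℕ)) ?_ ⟨((1, 0), 0), ?_⟩ ⟨((1, 2), 0), ?_⟩
      ?_ ?_ ?_ ?_ ?_
    · rw [Set.disjoint_left]
      intro v h1 h2
      have h3 : PA v.1.1 v.1.2 := h1
      have h4 : PB v.1.1 v.1.2 := h2
      unfold PA at h3
      unfold PB at h4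
      omega
    · show PA 1 0
      unfold PA
      omega
    · show PB 1 2
      unfold PB
      omega
    · rintro ⟨n, k⟩ hnk ⟨⟨p, q⟩, l⟩ hv
      have hv' : PB p q := hv
      have hn : Multiplicative.toAdd n ≠ 0 := by
        intro h0
        apply hnk
        refine ⟨k, ?_⟩
        rw [hα]
        refine Prod.ext ?_ rfl
        exact (toAdd_eq_zero.1 h0).symm
      rw [hFv, hθl, hθA, map_mul, Equiv.Perm.mul_apply]
      rcases hφzn (Multiplicative.toAdd k) with h1 | h1
      · rw [h1, hφan]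
        exact ⟨stepA hn hv', le_rfl⟩
      · rw [h1, hφan]
        refine ⟨stepA hn (PB_neg hv'), ?_⟩
        show ((q.natAbs : ℕ) : WithBot ℕ) ≤ (((-q).natAbs : ℕ) : WithBot ℕ)
        rw [Int.natAbs_neg]
    · rintro n hn ⟨⟨p, q⟩, l⟩ hv
      have hv' : PA p q := hv
      rcases Int.even_or_odd' (Multiplicative.toAdd n) with ⟨j, hj | hj⟩
      · exfalso
        apply hn
        refine ⟨Multiplicative.ofAdd j, ?_⟩
        rw [hβ]
        apply Multiplicative.toAdd.injective
        rw [toAdd_pow, toAdd_ofAdd, hj, nsmul_eq_mul]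
        rfl
      · rw [hFv, hθr, hθB, hj, zpow_add_one, hx2, map_mul, Equiv.Perm.mul_apply, hφx]
        have h2 := stepB hv'
        have h3 := stepD hv'
        rcases hφzn j with h1 | h1
        · rw [h1]
          exact ⟨h2, WithBot.coe_lt_coe.2 h3⟩
        · rw [h1]
          refine ⟨PB_neg h2, ?_⟩
          show ((q.natAbs : ℕ) : WithBot ℕ) < (((-(q - 2 * p)).natAbs : ℕ) : WithBot ℕ)
          rw [Int.natAbs_neg]
          exact WithBot.coe_lt_coe.2 h3
    · rintro k ⟨⟨p, q⟩, l⟩ hv
      have hv' : PA p q := hv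
      rw [hFv, hθl, hαz]
      rcases hφzn (Multiplicative.toAdd k) with h1 | h1
      · rw [h1]
        exact ⟨hv', rfl⟩
      · rw [h1]
        refine ⟨PA_neg hv', ?_⟩
        show (((-q).natAbs : ℕ) : WithBot ℕ) = ((q.natAbs : ℕ) : WithBot ℕ)
        rw [Int.natAbs_neg]
    · rintro k ⟨⟨p, q⟩, l⟩ hv
      have hv' : PB p q := hv
      rw [hFv, hθl, hαz]
      rcases hφzn (Multiplicative.toAdd k) with h1 | h1
      · rw [h1]
        exact ⟨hv', rfl⟩
      · rw [h1]
        refine ⟨PB_neg hv', ?_⟩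
        show (((-q).natAbs : ℕ) : WithBot ℕ) = ((q.natAbs : ℕ) : WithBot ℕ)
        rw [Int.natAbs_neg]
    · intro k hk
      have h1 := hFv (Am.inl α β (α k)) ((0, 0), 0)
      rw [hk, Equiv.Perm.one_apply, hθl, hαz] at h1
      have h2 : (0 : ℤ) = 0 + Multiplicative.toAdd (len (z ^ (Multiplicative.toAdd k))) :=
        congrArg Prod.snd h1
      rw [map_zpow, hlz, toAdd_zpow, toAdd_ofAdd] at h2
      apply toAdd_eq_zero.1
      simp only [smul_eq_mul] at h2
      omega
  intro g hg1 hg2
  obtain ⟨h, rfl⟩ := hsurj g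
  have h1 : F h = F 1 := by
    rw [map_one]
    apply Equiv.ext
    intro v
    rw [hFv, hg1, hg2, toAdd_one, add_zero]
    rfl
  rw [hinj h1, map_one]

/-- the dihedral Artin group of label `4` -/
theorem t_dih4 : S_DIH 4 := by
  intro b
  let S : Equiv.Perm (ℤ × ℤ) :=
    { toFun := fun v => (v.1 + v.2, v.2)
      invFun := fun v => (v.1 - v.2, v.2)
      left_inv := fun v => by simp
      right_inv := fun v => by simp }
  let T : Equiv.Perm (ℤ × ℤ) :=
    { toFun := fun v => (v.1, v.2 - 2 * v.1)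
      invFun := fun v => (v.1, v.2 + 2 * v.1)
      left_inv := fun v => by simp
      right_inv := fun v => by simp }
  have hST : S * (T * (S * (T * 1))) = T * (S * (T * (S * 1))) := by
    apply Equiv.ext
    rintro ⟨p, q⟩
    simp only [Equiv.Perm.mul_apply, mul_one]
    refine Prod.ext ?_ ?_
    · simp only [S, T, Equiv.coe_fn_mk]
      ring
    · simp only [S, T, Equiv.coe_fn_mk]
      ring
  obtain ⟨φ, hφ⟩ := t_lift Bool (Equiv.Perm (ℤ × ℤ)) (fun _ _ => 4)
    (fun c => if c = b then S else T) (by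
      intro s t _
      by_cases h1 : s = b <;> by_cases h2 : t = b
      · simp only [h1, h2]
      · simp only [h1, h2, if_true, if_false, alt]
        exact hST
      · simp only [h1, h2, if_true, if_false, alt]
        exact hST.symm
      · simp only [h1, h2, if_false])
  have hb : (!b) ≠ b := by
    cases b <;> decide
  have ha : φ (gen _ b) = S := by
    rw [hφ, if_pos rfl]
  have hc : φ (gen _ (!b)) = T := by
    rw [hφ, if_neg hb]
  have hφa : ∀ x y, φ (gen _ b) (x, y) = (x + y, y) := by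
    intro x y
    rw [ha]
    rfl
  have hφc : ∀ x y, φ (gen _ (!b)) (x, y) = (x, y - 2 * x) := by
    intro x y
    rw [hc]
    rfl
  refine ⟨φ, hφa, ?_, ?_⟩
  · intro x y
    rw [hφc]
    have : kap 4 = 2 := by decide
    rw [this]
  · intro len hlen
    refine core (gen _ b) (gen _ (!b)) ?_ ?_ φ hφa hφc len (hlen _) (hlen _)
    · have h1 := t_rel Bool (fun _ _ => 4) b (!b) (by norm_num)
      simpa only [alt, mul_one] using h1
    · intro S' h1 h2 g
      refine mem_of_gen S' (fun s => ?_) g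
      rcases Bool.eq_or_eq_not s b with h | h
      · rw [h]
        exact h1
      · rw [h]
        exact h2

end Pool.Agent.Y759.ARD
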